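import Pool.Agent.H56.FD.Defs
import Pool.Agent.H43.TD.Node

/-!
# Project FD, gap theorem, route 2: integrality and size in the notation of `Defs`
-/

namespace H56FD
open Polynomial Finset

lemma T4_eq (B N : ℕ) (I : Finset ℕ) (a : ℕ) : T4 B N I a = Pool.Agent.H43.TD.TI B N I a := by
  unfold T4 Pool.Agent.H43.TD.TI
  refine Finset.prod_congr rfl fun n _ => ?_
  congr 1
  refine Finset.prod_congr rfl fun i _ => ?_
  congr 2
  split_ifs <;> ring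

lemma DD_eq (i a : ℕ) : DD i a = Pool.Agent.H43.TD.bi a i := rfl

/-- integrality of the entries -/
theorem nrm_dvd {Y Z B i a s : ℕ} (hY : 1 ≤ Y) (hi : i ≤ Y) (ha : a ≤ Z * Y) (I : Finset ℕ) :
    (nrm Y Z B i : ℤ) ∣ (Nat.lcmUpto Y : ℤ) ^ (s + B) * (DD i a * T4 B (Z * Y) I a).coeff s := by
  rw [T4_eq, DD_eq]
  exact Pool.Agent.H43.TD.int_main hY I ha hi s

/-- size of the coefficients -/
theorem coeff_le {Y Z B i a s : ℕ} (ha : a ≤ Z * Y) (I : Finset ℕ) :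
    |(DD i a * T4 B (Z * Y) I a).coeff s| ≤
      ((nrm Y Z B i * (2 ^ (a + i) *
        ∏ n ∈ Icc 1 B, (8 ^ (n * (Z * Y)) * 4 ^ n * (3 * n * Z) ^ (n * (Z * Y)))) : ℕ) : ℤ) := by
  rw [T4_eq, DD_eq]
  refine (Pool.Agent.H43.TD.size_main I ha s).trans ?_
  have h1 : 2 ^ (i + a) * ∏ n ∈ Icc 1 B, (8 ^ (n * (Z * Y)) * 4 ^ n * (n * Z) ^ (n * (Z * Y)))
      ≤ 2 ^ (a + i) * ∏ n ∈ Icc 1 B, (8 ^ (n * (Z * Y)) * 4 ^ n * (3 * n * Z) ^ (n * (Z * Y))) := by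
    rw [add_comm i a]
    gcongr with n _
    nlinarith
  have h2 : nrm Y Z B i = Y.factorial ^ Pool.Agent.H43.TD.ex B Z * i.factorial := rfl
  rw [h2]
  exact_mod_cast Nat.mul_le_mul_left _ h1

end H56FD
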