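import Mathlib
import Pool.Agent.H8.FD.Fam

/-!
# Project FD, gap theorem, route 2 (Siegel form): definitions

`N = Z Y` nodes, blocks of length `Y`, `B` layers, `F` a family of subsets of `[1,B]` with the
same power sums.
-/

namespace H56FD
open Polynomial Finset

/-- the local polynomial of the column `I` at the node `a` -/
noncomputable def T4 (B N : ℕ) (I : Finset ℕ) (a : ℕ) : ℤ[X] :=
  ∏ n ∈ Icc 1 B, ((∏ i ∈ range (n * a),
      (C (4 * n : ℤ) * X + C (4 * i + (if n ∈ I then 2 else 4) : ℤ))) *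
    ∏ i ∈ range (n * (N - a)), (C (n : ℤ) * X - C (i + 1 : ℤ)))

/-- `(a + X)(a + X - 1) ... (a + X - i + 1)` -/
noncomputable def DD (i a : ℕ) : ℤ[X] := ∏ j ∈ range i, (X + C ((a : ℤ) - j))

/-- the normalisation -/
def nrm (Y Z B i : ℕ) : ℕ := Y.factorial ^ (Z * ∑ n ∈ Icc 1 B, n) * i.factorial

/-- the integer matrix: row `(a,s)`, column `(I,i)` -/
noncomputable def ent (Y Z B : ℕ) (I : Finset ℕ) (i a s : ℕ) : ℤ :=
  ((Nat.lcmUpto Y : ℤ) ^ (s + B) * (DD i a * T4 B (Z * Y) I a).coeff s) / (nrm Y Z B i : ℤ)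

/-- the value of the row `(a,s)` -/
noncomputable def vl (Y Z B : ℕ) (F : Finset (Finset ℕ)) (t : Finset ℕ → ℕ → ℤ) (a s : ℕ) : ℤ :=
  ∑ I ∈ F, ∑ i ∈ range Y, ent Y Z B I i a s * t I i

/-- the bound of the entries -/
noncomputable def KK (Y Z B e : ℕ) : ℕ :=
  Nat.lcmUpto Y ^ (e + B) * 2 ^ (Z * Y + Y) *
    ∏ n ∈ Icc 1 B, (8 ^ (n * (Z * Y)) * 4 ^ n * (3 * n * Z) ^ (n * (Z * Y)))

end H56FD
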