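import Pool.Agent.H56.FD.GapThm
import Pool.Agent.H2.FD.SSz
import Pool.Agent.H76.FD.Par

/-!
# Project FD: the gap theorem, route 2: final assembly
-/

namespace H56FD
open Polynomial Finset

/-- **The gap theorem.** -/
theorem gap : Pool.Agent.FD.Gap := by
  classical
  refine ⟨13, fun ε hε => ?_⟩
  obtain ⟨r₀, hr₀, hpar⟩ := Pool.Agent.H76.FD.par ε hε
  refine ⟨r₀, fun r hr => ?_⟩
  have hr64 : 64 ≤ r := hr₀.trans hr
  obtain ⟨X₀, hX₀⟩ := hpar r hr
  refine ⟨X₀, fun X hX => ?_⟩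
  obtain ⟨Y, hY, hpow, hdeg, hlog, hth, hcount, he, h2⟩ := hX₀ X hX
  obtain ⟨F, hFc, hFs, hFp⟩ := H8FD.exists_family_cube r (2 * r ^ 12 * r ^ 6) hr64 hpow
  set E : Finset ℕ := (Icc 1 X).filter (fun p : ℕ => p.Prime ∧ ∀ j : ℕ, Odd j → r < j →
    j ≤ r ^ 13 → (p : ℤ) ∣ (_root_.bernoulli (p - j)).num) with hE
  set M := r ^ 3 * (3 * r ^ 6 * Y) with hM
  have hsplit : ∑ p ∈ E, Real.log p = ∑ p ∈ E.filter (fun p => p ≤ M), Real.log p
      + ∑ p ∈ E.filter (fun p => ¬ p ≤ M), Real.log p :=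
    (Finset.sum_filter_add_sum_filter_not _ _ _).symm
  have h3 : ∑ p ∈ E.filter (fun p => p ≤ M), Real.log p ≤ ε / 2 * X := by
    refine le_trans ?_ hth
    rw [Chebyshev.theta_eq_sum_Icc, Nat.floor_natCast]
    refine Finset.sum_le_sum_of_subset_of_nonneg ?_ ?_
    · intro p hp
      rw [Finset.mem_filter, hE, Finset.mem_filter, Finset.mem_Icc] at hp
      rw [Finset.mem_filter, Finset.mem_Icc]
      exact ⟨⟨Nat.zero_le _, hp.2⟩, hp.1.2.1⟩
    · intro p hp _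
      rw [Finset.mem_filter] at hp
      exact Real.log_nonneg (by exact_mod_cast hp.2.one_le)
  have hr1 : 1 ≤ r := by omega
  have h4 : ∑ p ∈ E.filter (fun p => ¬ p ≤ M), Real.log p ≤ ε / 2 * X := by
    refine le_trans (core Y (r ^ 6) (r ^ 3) (r ^ 12) hY (Nat.one_le_pow _ _ hr1)
      (Nat.one_le_pow _ _ hr1) (Nat.one_le_pow _ _ hr1) F hFs hFc (by rw [hFc]; exact hcount)
      (E.filter (fun p => ¬ p ≤ M)) ?_) (by rw [hFc]; exact hlog)
    intro p hp
    rw [Finset.mem_filter, hE, Finset.mem_filter, Finset.mem_Icc, not_le] at hp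
    obtain ⟨⟨⟨-, hpX⟩, hpr, hgap⟩, hpM⟩ := hp
    have hpM' : M < p := hpM
    refine ⟨hpr, by omega, hpM', ?_, ?_⟩
    · refine le_trans (Nat.add_le_add_left (Nat.mul_le_mul_left _ ?_) _) hdeg
      omega
    · intro hp' I hI J hJ
      refine Pool.Agent.H2.FD.GI_congr_gap p (by omega) r (r ^ 13) (r ^ 12) (by omega) ?_
        (by omega) hgap I J ?_
      · have : r ^ 12 ≤ r ^ 13 := Nat.pow_le_pow_right hr1 (by norm_num)
        omega
      · intro k hk1 hk2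
        exact hFp I hI J hJ k hk1 hk2
  have hmain : ∑ p ∈ E, Real.log p ≤ ε * X := by
    rw [hsplit]
    linarith
  convert hmain using 2

end H56FD
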