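import Mathlib

/-!
# Project FD: Siegel's lemma with twice as many unknowns as equations, and one nonzero integer
-/

namespace H56FD
open Finset

attribute [local instance] Matrix.seminormedAddCommGroup

/-- Siegel's lemma, twice as many unknowns as equations. -/
theorem siegel_two {α β : Type*} [Fintype α] [Fintype β] [Nonempty α]
    (hcard : Fintype.card β = 2 * Fintype.card α) (A : α → β → ℤ) (K : ℝ) (hK : 1 ≤ K)
    (hA : ∀ a b, |(A a b : ℝ)| ≤ K) :
    ∃ t : β → ℤ, t ≠ 0 ∧ (∀ a, ∑ b, A a b * t b = 0) ∧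
      ∀ b, |(t b : ℝ)| ≤ Fintype.card β * K := by
  classical
  have hα : 0 < Fintype.card α := Fintype.card_pos
  obtain ⟨t, ht0, htA, htn⟩ := Int.Matrix.exists_ne_zero_int_vec_norm_le (Matrix.of A)
    (by omega) hα
  refine ⟨t, ht0, ?_, ?_⟩
  · intro a
    have := congrFun htA a
    simpa [Matrix.mulVec, dotProduct] using this
  · intro b
    have hexp : ((Fintype.card α : ℝ) / ((Fintype.card β : ℝ) - Fintype.card α)) = 1 := by
      rw [hcard]
      push_cast
      have : (0 : ℝ) < Fintype.card α := by exact_mod_cast hα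
      rw [div_eq_one_iff_eq]
      · ring
      · nlinarith
    rw [hexp, Real.rpow_one] at htn
    have hnA : ‖Matrix.of A‖ ≤ K := by
      rw [Matrix.norm_le_iff (by linarith)]
      intro i j
      rw [Matrix.of_apply, Int.norm_eq_abs]
      exact hA i j
    have hmax : max 1 ‖Matrix.of A‖ ≤ K := max_le hK hnA
    have h1 : |(t b : ℝ)| ≤ ‖t‖ := by
      have := norm_le_pi_norm t b
      rwa [Int.norm_eq_abs] at this
    have h2 : (Fintype.card β : ℝ) * max 1 ‖Matrix.of A‖ ≤ Fintype.card β * K :=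
      mul_le_mul_of_nonneg_left hmax (Nat.cast_nonneg _)
    linarith

/-- A nonzero integer divisible by all primes of a finite set. -/
theorem one_int (z : ℤ) (hz : z ≠ 0) (P : Finset ℕ) (hP : ∀ p ∈ P, p.Prime ∧ (p : ℤ) ∣ z) :
    ∑ p ∈ P, Real.log p ≤ Real.log |(z : ℝ)| := by
  have hdvd : (∏ p ∈ P, p) ∣ z.natAbs := by
    refine Finset.prod_primes_dvd z.natAbs (fun p hp => (hP p hp).1.prime) fun p hp => ?_
    exact Int.natCast_dvd.1 (hP p hp).2
  have hpos : 0 < z.natAbs := Int.natAbs_pos.2 hz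
  have hle : (∏ p ∈ P, p) ≤ z.natAbs := Nat.le_of_dvd hpos hdvd
  have h0 : ∀ p ∈ P, (p : ℝ) ≠ 0 := fun p hp => by
    exact_mod_cast (hP p hp).1.ne_zero
  rw [← Real.log_prod h0]
  have hprodpos : (0 : ℝ) < ∏ p ∈ P, (p : ℝ) :=
    Finset.prod_pos fun p hp => by exact_mod_cast (hP p hp).1.pos
  refine Real.log_le_log hprodpos ?_
  have h2 : ((∏ p ∈ P, p : ℕ) : ℝ) ≤ (z.natAbs : ℝ) := by exact_mod_cast hle
  rw [Nat.cast_prod] at h2
  rw [Nat.cast_natAbs] at h2
  simpa using h2

end H56FD
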