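import Pool.Agent.H56.FD.IntSz
import Pool.Agent.H78.FD.BadDiv
import Pool.Agent.H39.FD.ZeroFin
import Pool.Agent.H56.FD.Siegel
import Pool.Agent.FD.Dens

/-!
# Project FD: the gap theorem, route 2 (Siegel form)
-/

namespace H56FD
open Polynomial Finset

/-- bound for the entries -/
lemma ent_le {Y Z B e i a s : ℕ} (hY : 1 ≤ Y) (hi : i ≤ Y) (ha : a ≤ Z * Y) (hs : s ≤ e)
    (I : Finset ℕ) : |ent Y Z B I i a s| ≤ (KK Y Z B e : ℤ) := by
  obtain ⟨c, hc⟩ := nrm_dvd (s := s) (B := B) hY hi ha I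
  have hnpos : 0 < nrm Y Z B i := by
    unfold nrm
    positivity
  have hnposZ : (0 : ℤ) < (nrm Y Z B i : ℤ) := by exact_mod_cast hnpos
  have hent : ent Y Z B I i a s = c := by
    unfold ent
    rw [hc]
    exact Int.mul_ediv_cancel_left _ hnposZ.ne'
  rw [hent]
  have h1 := coeff_le (s := s) (B := B) (i := i) ha I
  have hL : (0 : ℤ) < (Nat.lcmUpto Y : ℤ) := by exact_mod_cast Nat.lcmUpto_pos Y
  have h2 : (nrm Y Z B i : ℤ) * |c| ≤ (nrm Y Z B i : ℤ) * (KK Y Z B e : ℤ) := by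
    calc (nrm Y Z B i : ℤ) * |c| = |(nrm Y Z B i : ℤ) * c| := by
          rw [abs_mul, abs_of_pos hnposZ]
      _ = (Nat.lcmUpto Y : ℤ) ^ (s + B) * |(DD i a * T4 B (Z * Y) I a).coeff s| := by
          rw [← hc, abs_mul, abs_of_pos (pow_pos hL _)]
      _ ≤ (Nat.lcmUpto Y : ℤ) ^ (s + B) * ((nrm Y Z B i * (2 ^ (a + i) *
            ∏ n ∈ Icc 1 B, (8 ^ (n * (Z * Y)) * 4 ^ n * (3 * n * Z) ^ (n * (Z * Y)))) : ℕ) : ℤ) :=
          mul_le_mul_of_nonneg_left h1 (pow_pos hL _).le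
      _ ≤ (nrm Y Z B i : ℤ) * (KK Y Z B e : ℤ) := by
          have h3 : Nat.lcmUpto Y ^ (s + B) * (nrm Y Z B i * (2 ^ (a + i) *
            ∏ n ∈ Icc 1 B, (8 ^ (n * (Z * Y)) * 4 ^ n * (3 * n * Z) ^ (n * (Z * Y)))))
              ≤ nrm Y Z B i * KK Y Z B e := by
            unfold KK
            calc Nat.lcmUpto Y ^ (s + B) * (nrm Y Z B i * (2 ^ (a + i) *
                ∏ n ∈ Icc 1 B, (8 ^ (n * (Z * Y)) * 4 ^ n * (3 * n * Z) ^ (n * (Z * Y)))))
                ≤ Nat.lcmUpto Y ^ (e + B) * (nrm Y Z B i * (2 ^ (Z * Y + Y) *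
                ∏ n ∈ Icc 1 B, (8 ^ (n * (Z * Y)) * 4 ^ n * (3 * n * Z) ^ (n * (Z * Y))))) := by
                  gcongr
                  · exact Nat.lcmUpto_pos Y
                  · norm_num
              _ = _ := by ring
          exact_mod_cast h3
  exact le_of_mul_le_mul_left h2 hnposZ

/-- core inequality -/
theorem core (Y Z1 B e : ℕ) (hY : 1 ≤ Y) (hZ1 : 1 ≤ Z1) (hB : 1 ≤ B) (he : 1 ≤ e)
    (F : Finset (Finset ℕ)) (hF : ∀ I ∈ F, I ⊆ Icc 1 B) (hcard : F.card = 2 * e * Z1)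
    (hcount : F.card * (Y + F.card * B ^ 2) < e * (3 * Z1 * Y - F.card))
    (P : Finset ℕ) (hP : ∀ p ∈ P, p.Prime ∧ p ≠ 2 ∧ B * (3 * Z1 * Y) < p ∧
      Y + B * ((p - 1) / 2) ≤ e * (Z1 * Y) ∧
      ∀ (_ : Fact p.Prime), ∀ I ∈ F, ∀ J ∈ F, X ^ e ∣ H8FD.GI p I - H8FD.GI p J) :
    ∑ p ∈ P, Real.log p ≤ 2 * Real.log ((F.card : ℝ) * Y * (KK Y (3 * Z1) B e : ℝ)) := by
  classical
  set Z := 3 * Z1 with hZ
  -- the linear system
  let α := Fin (Z1 * Y) × Fin e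
  let β := {I // I ∈ F} × Fin Y
  have hcα : Fintype.card α = Z1 * Y * e := by simp [α]
  have hcβ : Fintype.card β = F.card * Y := by simp [β]
  have hαpos : 0 < Fintype.card α := by rw [hcα]; positivity
  have : Nonempty α := Fintype.card_pos_iff.1 hαpos
  have hKpos : 1 ≤ KK Y Z B e := by
    unfold KK
    have h1 : 0 < Nat.lcmUpto Y := Nat.lcmUpto_pos Y
    have h2 : 0 < ∏ n ∈ Icc 1 B, (8 ^ (n * (Z * Y)) * 4 ^ n * (3 * n * Z) ^ (n * (Z * Y))) := by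
      refine Finset.prod_pos fun n hn => ?_
      have : 1 ≤ n := (Finset.mem_Icc.1 hn).1
      have hZpos : 0 < Z := by omega
      positivity
    have : 0 < Nat.lcmUpto Y ^ (e + B) * 2 ^ (Z * Y + Y) *
      ∏ n ∈ Icc 1 B, (8 ^ (n * (Z * Y)) * 4 ^ n * (3 * n * Z) ^ (n * (Z * Y))) := by positivity
    exact this
  have hKR : (1 : ℝ) ≤ (KK Y Z B e : ℝ) := by exact_mod_cast hKpos
  obtain ⟨t, ht0, hteq, htb⟩ := siegel_two (α := α) (β := β)
    (by rw [hcα, hcβ, hcard]; ring)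
    (fun x y => ent Y Z B y.1.1 y.2.1 x.1.1 x.2.1) (KK Y Z B e : ℝ) hKR (by
      rintro ⟨a, s⟩ ⟨I, i⟩
      have h1 := ent_le (Y := Y) (Z := Z) (B := B) (e := e) (i := i.1) (a := a.1) (s := s.1)
        hY i.2.le (by
          have := a.2
          have h3 : Z1 * Y ≤ Z * Y := Nat.mul_le_mul_right Y (by omega)
          omega) s.2.le I.1
      rw [← Int.cast_abs]
      exact_mod_cast h1)
  let t' : Finset ℕ → ℕ → ℤ := fun I i =>
    if h : I ∈ F ∧ i < Y then t (⟨I, h.1⟩, ⟨i, h.2⟩) else 0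
  have ht'b : ∀ I i, |(t' I i : ℝ)| ≤ (F.card : ℝ) * Y * KK Y Z B e := by
    intro I i
    simp only [t']
    split_ifs with h
    · have := htb (⟨I, h.1⟩, ⟨i, h.2⟩)
      rw [hcβ] at this
      push_cast at this
      exact this
    · simp only [Int.cast_zero, abs_zero]
      positivity
  have hvl : ∀ a s, vl Y Z B F t' a s = ∑ b : β, ent Y Z B b.1.1 b.2.1 a s * t b := by
    intro a s
    unfold vl
    rw [Fintype.sum_prod_type, ← Finset.sum_coe_sort F]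
    refine Finset.sum_congr rfl fun I _ => ?_
    rw [Finset.sum_range]
    refine Finset.sum_congr rfl fun i _ => ?_
    simp only [t']
    rw [dif_pos ⟨I.2, i.2⟩]
  have hzero : ∀ a < Z1 * Y, ∀ s < e, vl Y Z B F t' a s = 0 := by
    intro a ha s hs
    rw [hvl]
    exact hteq (⟨a, ha⟩, ⟨s, hs⟩)
  have hne : ∃ I ∈ F, ∃ i < Y, t' I i ≠ 0 := by
    obtain ⟨⟨I, i⟩, hb⟩ : ∃ b, t b ≠ 0 := by
      by_contra hcon
      push Not at hcon
      exact ht0 (funext hcon)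
    refine ⟨I.1, I.2, i.1, i.2, ?_⟩
    simp only [t']
    rw [dif_pos ⟨I.2, i.2⟩]
    exact hb
  obtain ⟨a, ha, s, hs, hz⟩ := Pool.Agent.H39.FD.zero_inst Y Z B e hY hB he F hF hcount t' hne
  have hdiv : ∀ p ∈ P, p.Prime ∧ (p : ℤ) ∣ vl Y Z B F t' a s := by
    intro p hp
    obtain ⟨hpr, h2, hBp, hdeg, hc⟩ := hP p hp
    have : Fact p.Prime := ⟨hpr⟩
    have h3 : Z * Y ≤ B * (Z * Y) := Nat.le_mul_of_pos_left _ hB
    have h4 : Y ≤ Z * Y := Nat.le_mul_of_pos_left _ (by omega)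
    exact ⟨hpr, H78FD.bad_div p h2 Y Z1 B e hY he F hF (hc ⟨hpr⟩) hBp (lt_of_le_of_lt h3 hBp)
      (lt_of_le_of_lt (h4.trans h3) hBp) hdeg t' hzero a ha s hs⟩
  have h1 := one_int _ hz P hdiv
  refine h1.trans ?_
  have hFpos : 0 < F.card := by rw [hcard]; positivity
  have hFR : (0 : ℝ) < F.card := by exact_mod_cast hFpos
  have hYR : (0 : ℝ) < Y := by exact_mod_cast hY
  set M : ℝ := (F.card : ℝ) * Y * (KK Y Z B e : ℝ) with hM
  have hMpos : 0 < M := by positivity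
  have hbound : |((vl Y Z B F t' a s : ℤ) : ℝ)| ≤ M ^ 2 := by
    unfold vl
    push_cast
    calc |∑ I ∈ F, ∑ i ∈ range Y, (ent Y Z B I i a s : ℝ) * (t' I i : ℝ)|
        ≤ ∑ I ∈ F, |∑ i ∈ range Y, (ent Y Z B I i a s : ℝ) * (t' I i : ℝ)| :=
          Finset.abs_sum_le_sum_abs _ _
      _ ≤ ∑ I ∈ F, ∑ i ∈ range Y, |(ent Y Z B I i a s : ℝ) * (t' I i : ℝ)| :=
          Finset.sum_le_sum fun I _ => Finset.abs_sum_le_sum_abs _ _
      _ ≤ ∑ I ∈ F, ∑ i ∈ range Y, (KK Y Z B e : ℝ) * M := by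
          refine Finset.sum_le_sum fun I _ => Finset.sum_le_sum fun i hi => ?_
          rw [abs_mul]
          refine mul_le_mul ?_ (ht'b I i) (abs_nonneg _) (by positivity)
          rw [← Int.cast_abs]
          exact_mod_cast ent_le (e := e) hY (Finset.mem_range.1 hi).le ha.le hs.le I
      _ = M ^ 2 := by
          simp only [Finset.sum_const, Finset.card_range, nsmul_eq_mul]
          rw [hM]; ring
  have hzR : (0 : ℝ) < |((vl Y Z B F t' a s : ℤ) : ℝ)| := by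
    rw [abs_pos]
    exact_mod_cast hz
  calc Real.log |((vl Y Z B F t' a s : ℤ) : ℝ)| ≤ Real.log (M ^ 2) := Real.log_le_log hzR hbound
    _ = 2 * Real.log M := by rw [Real.log_pow]; norm_num

end H56FD
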